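import Mathlib

set_option autoImplicit false

/-!
# The Korenblum extremal function is not increasing in `p`

If `(f, g)` is admissible for the exponent `k p` then `(f ^ k, g ^ k)` is admissible for `p`, with
the same value of the functional.  Hence `F_{kp}(c) ≤ F_p(c)` for all `c ∈ (0,1)`, which disproves
`F_{p₁}(c) < F_{p₂}(c)`.
-/

namespace Pool.Agent.Results.MP_ce4856_an.PowerTrick

open MeasureTheory Metric Set

noncomputable section

/-- `(1/π) ∫_𝔻 |f|^p dA`. -/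
def powInt (p : ℝ) (f : ℂ → ℂ) : ℝ := (1 / Real.pi) * ∫ z in ball (0 : ℂ) 1, ‖f z‖ ^ p

/-- The space `𝒜^p(𝔻)`. -/
def MemA (p : ℝ) (f : ℂ → ℂ) : Prop :=
  DifferentiableOn ℂ f (ball 0 1) ∧ IntegrableOn (fun z => ‖f z‖ ^ p) (ball (0 : ℂ) 1)

/-- The (quasi-)norm `‖f‖_p`. -/
def nrm (p : ℝ) (f : ℂ → ℂ) : ℝ := (powInt p f) ^ (1 / p)

/-- The property defining the Korenblum constant. -/
def KorenblumProperty (p c : ℝ) : Prop :=
  ∀ f g : ℂ → ℂ, MemA p f → MemA p g → (∀ z : ℂ, c < ‖z‖ → ‖z‖ < 1 → ‖f z‖ ≤ ‖g z‖) →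
    nrm p f ≤ nrm p g

/-- The Korenblum constant `κ_p` (the supremum of the empty set is `0`). -/
def kappa (p : ℝ) : ℝ := sSup {c : ℝ | 0 < c ∧ c < 1 ∧ KorenblumProperty p c}

/-- The set `FG_p(c)`. -/
def FG (p c : ℝ) : Set ((ℂ → ℂ) × (ℂ → ℂ)) :=
  {x | MemA p x.1 ∧ MemA p x.2 ∧ nrm p x.1 ≤ 1 ∧ nrm p x.2 ≤ 1 ∧
    ∀ z : ℂ, c ≤ ‖z‖ → ‖z‖ < 1 → ‖x.1 z‖ ≤ ‖x.2 z‖}

/-- The extremal function `F_p(c)`. -/
def extremal (p c : ℝ) : ℝ := sSup ((fun x : (ℂ → ℂ) × (ℂ → ℂ) => nrm p x.1 ^ p - nrm p x.2 ^ p) '' FG p c)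

lemma powInt_nonneg (p : ℝ) (f : ℂ → ℂ) : 0 ≤ powInt p f := by
  unfold powInt
  have : 0 ≤ ∫ z in ball (0 : ℂ) 1, ‖f z‖ ^ p := integral_nonneg fun z => by positivity
  have := Real.pi_pos
  positivity

lemma nrm_pow {p : ℝ} (hp : 0 < p) (f : ℂ → ℂ) : nrm p f ^ p = powInt p f := by
  unfold nrm
  rw [← Real.rpow_mul (powInt_nonneg p f), one_div, inv_mul_cancel₀ hp.ne', Real.rpow_one]

lemma nrm_nonneg (p : ℝ) (f : ℂ → ℂ) : 0 ≤ nrm p f := Real.rpow_nonneg (powInt_nonneg p f) _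

lemma nrm_le_one {p : ℝ} (hp : 0 < p) (f : ℂ → ℂ) : nrm p f ≤ 1 ↔ powInt p f ≤ 1 := by
  rw [← nrm_pow hp f]
  constructor
  · intro h
    exact Real.rpow_le_one (nrm_nonneg p f) h hp.le
  · intro h
    by_contra hc
    push Not at hc
    have := Real.one_lt_rpow hc hp
    linarith

lemma norm_pow_rpow {p : ℝ} (k : ℕ) (w : ℂ) : ‖w ^ k‖ ^ p = ‖w‖ ^ ((k : ℝ) * p) := by
  rw [norm_pow, ← Real.rpow_natCast, ← Real.rpow_mul (norm_nonneg _)]

lemma powInt_pow (p : ℝ) (k : ℕ) (f : ℂ → ℂ) :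
    powInt p (fun z => f z ^ k) = powInt ((k : ℝ) * p) f := by
  unfold powInt
  simp only [norm_pow_rpow]

lemma memA_pow {p : ℝ} (k : ℕ) {f : ℂ → ℂ} (hf : MemA ((k : ℝ) * p) f) :
    MemA p (fun z => f z ^ k) := by
  refine ⟨hf.1.pow k, ?_⟩
  simp only [norm_pow_rpow]
  exact hf.2

lemma powInt_const_one {p : ℝ} : powInt p (fun _ => 1) = 1 := by
  unfold powInt
  simp only [norm_one, Real.one_rpow]
  have := Real.pi_pos
  simp [Measure.real, Complex.volume_ball]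
  try field_simp

lemma powInt_id_lt {p : ℝ} (hp : 0 < p) : powInt p (fun z => z) < 1 := by
  rw [← powInt_const_one (p := p)]
  unfold powInt
  have hpi := Real.pi_pos
  apply mul_lt_mul_of_pos_left _ (by positivity)
  have hi1 : IntegrableOn (fun z : ℂ => ‖z‖ ^ p) (ball (0 : ℂ) 1) := by
    have : ContinuousOn (fun z : ℂ => ‖z‖ ^ p) (closedBall (0 : ℂ) 1) :=
      (continuous_norm.rpow_const fun _ => Or.inr hp.le).continuousOn
    exact (this.integrableOn_compact (isCompact_closedBall _ _)).mono_set ball_subset_closedBall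
  have hi2 : IntegrableOn (fun _ : ℂ => ‖(1 : ℂ)‖ ^ p) (ball (0 : ℂ) 1) :=
    integrableOn_const (by simp)
  have hlt : ∀ z ∈ ball (0 : ℂ) 1, ‖z‖ ^ p < ‖(1 : ℂ)‖ ^ p := by
    intro z hz
    rw [mem_ball_zero_iff] at hz
    rw [norm_one]
    exact Real.rpow_lt_rpow (norm_nonneg z) hz hp
  have h0 : 0 < ∫ z in ball (0 : ℂ) 1, (‖(1 : ℂ)‖ ^ p - ‖z‖ ^ p) := by
    rw [setIntegral_pos_iff_support_of_nonneg_ae]
    · have hs : ball (0 : ℂ) 1 ⊆ Function.support (fun z : ℂ => ‖(1 : ℂ)‖ ^ p - ‖z‖ ^ p) := by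
        intro z hz
        have := hlt z hz
        simp only [Function.mem_support]
        linarith
      rw [inter_eq_right.2 hs]
      exact measure_ball_pos _ _ one_pos
    · filter_upwards [ae_restrict_mem measurableSet_ball] with z hz
      have := hlt z hz
      simp only [Pi.zero_apply]
      linarith
    · exact hi2.sub hi1
  rw [integral_sub hi2 hi1] at h0
  linarith

/-- `κ_p < 1` for every `p > 0`. -/
lemma kappa_lt_one {p : ℝ} (hp : 0 < p) : kappa p < 1 := by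
  set a0 : ℝ := nrm p (fun z => z) with ha0
  have ha0n : 0 ≤ a0 := nrm_nonneg _ _
  have ha1 : a0 < 1 := by
    have h1 := powInt_id_lt hp
    rw [← nrm_pow hp] at h1
    by_contra hc
    push Not at hc
    have := Real.one_le_rpow hc hp.le
    linarith
  refine lt_of_le_of_lt ?_ ha1
  apply Real.sSup_le _ ha0n
  rintro c ⟨hc0, hc1, hc⟩
  by_contra hlt
  push Not at hlt
  obtain ⟨a, haa, hac⟩ := exists_between hlt
  have ha : 0 < a := lt_of_le_of_lt ha0n haa
  have h1 := hc (fun _ => (a : ℂ)) (fun z => z) ⟨differentiableOn_const _, integrableOn_const (by simp)⟩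
    ⟨differentiableOn_id, ?_⟩ ?_
  · have h2 : nrm p (fun _ => (a : ℂ)) = a := by
      have h3 : powInt p (fun _ => (a : ℂ)) = a ^ p := by
        have h4 : powInt p (fun _ => (a : ℂ)) = a ^ p * powInt p (fun _ => 1) := by
          unfold powInt
          simp only [norm_one, Real.one_rpow, Complex.norm_real, Real.norm_of_nonneg ha.le]
          have : ∀ z : ℂ, a ^ p = a ^ p * (1 : ℝ) := fun z => by ring
          rw [show (fun _ : ℂ => a ^ p) = fun z : ℂ => a ^ p * (1 : ℝ) from funext this,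
            integral_const_mul]
          ring
        rw [h4, powInt_const_one, mul_one]
      unfold nrm
      rw [h3, ← Real.rpow_mul ha.le, one_div, mul_inv_cancel₀ hp.ne', Real.rpow_one]
    rw [h2] at h1
    linarith
  · have : ContinuousOn (fun z : ℂ => ‖z‖ ^ p) (closedBall (0 : ℂ) 1) :=
      (continuous_norm.rpow_const fun _ => Or.inr hp.le).continuousOn
    exact (this.integrableOn_compact (isCompact_closedBall _ _)).mono_set ball_subset_closedBall
  · intro z hz _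
    rw [Complex.norm_real, Real.norm_of_nonneg ha.le]
    linarith

/-- `F_{kp}(c) ≤ F_p(c)`. -/
lemma extremal_le {p : ℝ} (hp : 0 < p) {k : ℕ} (hk : 1 ≤ k) (c : ℝ) :
    extremal ((k : ℝ) * p) c ≤ extremal p c := by
  have hk0 : (0 : ℝ) < k := by exact_mod_cast hk
  have hkp : 0 < (k : ℝ) * p := by positivity
  unfold extremal
  apply csSup_le_csSup
  · refine ⟨1, ?_⟩
    rintro _ ⟨⟨f, g⟩, h, rfl⟩
    simp only [FG, mem_ofPred_eq] at h
    simp only
    rw [nrm_pow hp, nrm_pow hp]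
    have := (nrm_le_one hp f).1 h.2.2.1
    have := powInt_nonneg p g
    linarith
  · refine ⟨_, ⟨(fun _ => 0, fun _ => 0), ?_, rfl⟩⟩
    have h1 : MemA ((k : ℝ) * p) (fun _ => 0) := by
      refine ⟨differentiableOn_const _, ?_⟩
      simp only [norm_zero]
      exact integrableOn_const (by simp)
    have h2 : nrm ((k : ℝ) * p) (fun _ => 0) ≤ 1 := by
      rw [nrm_le_one hkp]
      unfold powInt
      simp [Real.zero_rpow hkp.ne']
    exact ⟨h1, h1, h2, h2, fun z _ _ => le_rfl⟩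
  · rintro _ ⟨⟨f, g⟩, h, rfl⟩
    simp only [FG, mem_ofPred_eq] at h
    obtain ⟨hf, hg, hf1, hg1, hfg⟩ := h
    refine ⟨(fun z => f z ^ k, fun z => g z ^ k), ⟨memA_pow k hf, memA_pow k hg, ?_, ?_, ?_⟩, ?_⟩
    · rw [nrm_le_one hp, powInt_pow, ← nrm_le_one hkp]; exact hf1
    · rw [nrm_le_one hp, powInt_pow, ← nrm_le_one hkp]; exact hg1
    · intro z hz hz1
      simp only [norm_pow]
      exact pow_le_pow_left₀ (norm_nonneg _) (hfg z hz hz1) k
    · simp only
      rw [nrm_pow hp, nrm_pow hp, nrm_pow hkp, nrm_pow hkp, powInt_pow, powInt_pow]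

/-- For every `p₁ > 0` and every integer `k ≥ 2`, with `p₂ = k p₁`: the interval
`(max κ_{p₁} κ_{p₂}, 1)` is not empty, and `F_{p₂}(c) ≤ F_{p₁}(c)` for every `c` in it (in fact for
every `c ∈ (0,1)`). -/
theorem result (p₁ : ℝ) (hp : 0 < p₁) (k : ℕ) (hk : 2 ≤ k) :
    p₁ < k * p₁ ∧ max (kappa p₁) (kappa (k * p₁)) < 1 ∧
      ∀ c ∈ Ioo (0 : ℝ) 1, extremal (k * p₁) c ≤ extremal p₁ c := by
  have hk0 : (2 : ℝ) ≤ k := by exact_mod_cast hk
  refine ⟨by nlinarith, max_lt (kappa_lt_one hp) (kappa_lt_one (by positivity)), fun c _ => ?_⟩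
  exact extremal_le hp (by omega) c

end

end Pool.Agent.Results.MP_ce4856_an.PowerTrick
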